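import Pool.Agent.R145.GG.Defs

/-!
Algebra: the weighted norms of a traceless matrix.
-/

set_option autoImplicit false

open Set

namespace Pool.Agent.R145.GG

open Pool.Agent.H708R2.EulerSign Pool.Agent.H708R2.EulerTypeI

/-- square of the Frobenius norm of the symmetric part -/
noncomputable def ss (A : Matrix (Fin 3) (Fin 3) ℝ) : ℝ := ∑ i, ∑ j, ((A i j + A j i) / 2) ^ 2

/-- square of the curl vector -/
noncomputable def ww (A : Matrix (Fin 3) (Fin 3) ℝ) : ℝ := cv A ⬝ᵥ cv A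

theorem ss_nonneg (A : Matrix (Fin 3) (Fin 3) ℝ) : 0 ≤ ss A :=
  Finset.sum_nonneg fun _ _ => Finset.sum_nonneg fun _ _ => sq_nonneg _

theorem ww_nonneg (A : Matrix (Fin 3) (Fin 3) ℝ) : 0 ≤ ww A := by
  unfold ww
  simp only [dotProduct, Fin.sum_univ_three]
  nlinarith [mul_self_nonneg (cv A 0), mul_self_nonneg (cv A 1), mul_self_nonneg (cv A 2)]

/-- the density as a function of the matrix -/
noncomputable def qq (w : ℝ) (A : Matrix (Fin 3) (Fin 3) ℝ) : ℝ := ss A + w / 2 * ww A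

theorem qq_nonneg {w : ℝ} (hw : 0 ≤ w) (A : Matrix (Fin 3) (Fin 3) ℝ) : 0 ≤ qq w A := by
  have := ss_nonneg A
  have := ww_nonneg A
  unfold qq
  positivity

theorem dens_eq (w : ℝ) (v : V → V) (x : V) : dens w v x = qq w (grad v x) := rfl

/-- the matrix `S + w Ω` -/
noncomputable def nm (w : ℝ) (A : Matrix (Fin 3) (Fin 3) ℝ) : Matrix (Fin 3) (Fin 3) ℝ :=
  Matrix.of fun i j => (A i j + A j i) / 2 + w * ((A i j - A j i) / 2)

/-- the unit ball of the dual norm -/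
def Kw (w : ℝ) : Set (Matrix (Fin 3) (Fin 3) ℝ) := {N | ss N + 1 / (2 * w) * ww N ≤ 1}

theorem pair_nm (w : ℝ) (A : Matrix (Fin 3) (Fin 3) ℝ) : pair (nm w A) A = qq w A := by
  simp only [pair, nm, qq, ss, ww, cv, dotProduct, Fin.sum_univ_three, Matrix.of_apply,
    Matrix.cons_val_zero, Matrix.cons_val_one, Matrix.cons_val]
  ring

theorem dual_nm {w : ℝ} (hw : 0 < w) (A : Matrix (Fin 3) (Fin 3) ℝ) :
    ss (nm w A) + 1 / (2 * w) * ww (nm w A) = qq w A := by
  have h0 : w ≠ 0 := hw.ne'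
  simp only [nm, qq, ss, ww, cv, dotProduct, Fin.sum_univ_three, Matrix.of_apply,
    Matrix.cons_val_zero, Matrix.cons_val_one, Matrix.cons_val]
  field_simp
  ring

/-- Cauchy's inequality for the dual norms -/
theorem pair_le {w : ℝ} (hw : 0 < w) {N : Matrix (Fin 3) (Fin 3) ℝ} (hN : N ∈ Kw w)
    (A : Matrix (Fin 3) (Fin 3) ℝ) : pair N A ≤ Real.sqrt (qq w A) := by
  have hN' : ss N + 1 / (2 * w) * ww N ≤ 1 := hN
  have hq := qq_nonneg hw.le A
  refine Real.le_sqrt_of_sq_le ?_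
  set r := Real.sqrt w with hr
  have hr0 : 0 < r := Real.sqrt_pos.2 hw
  have hr2 : r ^ 2 = w := Real.sq_sqrt hw.le
  -- the vectors of length twelve
  have key : pair N A ^ 2 ≤ (ss N + 1 / (2 * w) * ww N) * qq w A := by
    set f : Fin 3 × Fin 3 → ℝ := fun q => (N q.1 q.2 + N q.2 q.1) / 2
      + (N q.1 q.2 - N q.2 q.1) / 2 / r with hf
    set g : Fin 3 × Fin 3 → ℝ := fun q => (A q.1 q.2 + A q.2 q.1) / 2
      + (A q.1 q.2 - A q.2 q.1) / 2 * r with hg
    have h1 := Finset.sum_mul_sq_le_sq_mul_sq Finset.univ f g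
    have e1 : ∑ q, f q * g q = pair N A := by
      simp only [hf, hg, pair, Fintype.sum_prod_type, Fin.sum_univ_three]
      field_simp
      ring
    have e2 : ∑ q, f q ^ 2 = ss N + 1 / (2 * w) * ww N := by
      rw [← hr2]
      simp only [hf, ss, ww, cv, dotProduct, Fintype.sum_prod_type, Fin.sum_univ_three,
        Matrix.cons_val_zero, Matrix.cons_val_one, Matrix.cons_val]
      field_simp
      ring
    have e3 : ∑ q, g q ^ 2 = qq w A := by
      rw [← hr2]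
      simp only [hg, qq, ss, ww, cv, dotProduct, Fintype.sum_prod_type, Fin.sum_univ_three,
        Matrix.cons_val_zero, Matrix.cons_val_one, Matrix.cons_val]
      ring
    rw [e1, e2, e3] at h1
    exact h1
  calc pair N A ^ 2 ≤ (ss N + 1 / (2 * w) * ww N) * qq w A := key
    _ ≤ 1 * qq w A := by gcongr
    _ = qq w A := one_mul _

/-- `ω · A ω ≤ √(2/3) |S| |ω|²` for a traceless matrix -/
theorem stretch_sq {A : Matrix (Fin 3) (Fin 3) ℝ} (htr : A.trace = 0) (z : V) :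
    (z ⬝ᵥ A.mulVec z) ^ 2 ≤ 2 / 3 * ss A * (z ⬝ᵥ z) ^ 2 := by
  have ht : A 0 0 + A 1 1 + A 2 2 = 0 := by
    simpa [Matrix.trace, Fin.sum_univ_three] using htr
  set f : Fin 3 × Fin 3 → ℝ := fun q => (A q.1 q.2 + A q.2 q.1) / 2 with hf
  set g : Fin 3 × Fin 3 → ℝ := fun q => z q.1 * z q.2
    - (if q.1 = q.2 then (z ⬝ᵥ z) / 3 else 0) with hg
  have h1 := Finset.sum_mul_sq_le_sq_mul_sq Finset.univ f g
  have e1 : ∑ q, f q * g q = z ⬝ᵥ A.mulVec z := by
    have h22 : A 2 2 = -(A 0 0 + A 1 1) := by linarith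
    simp only [hf, hg, Fintype.sum_prod_type, Fin.sum_univ_three, dotProduct, Matrix.mulVec]
    simp
    rw [h22]
    ring
  have e2 : ∑ q, f q ^ 2 = ss A := by
    simp only [hf, ss, Fintype.sum_prod_type]
  have e3 : ∑ q, g q ^ 2 = 2 / 3 * (z ⬝ᵥ z) ^ 2 := by
    simp only [hg, Fintype.sum_prod_type, Fin.sum_univ_three, dotProduct]
    simp
    ring
  rw [e1, e2, e3] at h1
  linarith

/-- `tr S³` -/
noncomputable def tc (A : Matrix (Fin 3) (Fin 3) ℝ) : ℝ :=
  ∑ i, ∑ j, ∑ k, ((A i j + A j i) / 2) * ((A j k + A k j) / 2) * ((A k i + A i k) / 2)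

/-- `(tr S³)² ≤ |S|⁶ / 6` for a traceless matrix -/
theorem cube_sq {A : Matrix (Fin 3) (Fin 3) ℝ} (htr : A.trace = 0) :
    tc A ^ 2 ≤ ss A ^ 3 / 6 := by
  have ht : A 0 0 + A 1 1 + A 2 2 = 0 := by
    simpa [Matrix.trace, Fin.sum_univ_three] using htr
  have h22 : A 2 2 = -(A 0 0 + A 1 1) := by linarith
  set f : Fin 3 × Fin 3 → ℝ := fun q => (A q.1 q.2 + A q.2 q.1) / 2 with hf
  set g : Fin 3 × Fin 3 → ℝ := fun q => (∑ k, ((A q.1 k + A k q.1) / 2) * ((A k q.2 + A q.2 k) / 2))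
    - (if q.1 = q.2 then ss A / 3 else 0) with hg
  have h1 := Finset.sum_mul_sq_le_sq_mul_sq Finset.univ f g
  have e1 : ∑ q, f q * g q = tc A := by
    simp only [hf, hg, tc, ss, Fintype.sum_prod_type, Fin.sum_univ_three]
    simp
    rw [h22]
    ring
  have e2 : ∑ q, f q ^ 2 = ss A := by
    simp only [hf, ss, Fintype.sum_prod_type]
  have e3 : ∑ q, g q ^ 2 = ss A ^ 2 / 6 := by
    simp only [hg, ss, Fintype.sum_prod_type, Fin.sum_univ_three]
    simp
    rw [h22]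
    ring
  rw [e1, e2, e3] at h1
  linarith

/-- the quadratic term -/
theorem pair_nm_sq (w : ℝ) {A : Matrix (Fin 3) (Fin 3) ℝ} (htr : A.trace = 0) :
    pair (nm w A) (A * A) = tc A - (2 * w - 1) / 4 * (cv A ⬝ᵥ A.mulVec (cv A)) := by
  have ht : A 0 0 + A 1 1 + A 2 2 = 0 := by
    simpa [Matrix.trace, Fin.sum_univ_three] using htr
  have h22 : A 2 2 = -(A 0 0 + A 1 1) := by linarith
  simp only [pair, nm, tc, cv, dotProduct, Matrix.mulVec, Matrix.mul_apply, Fin.sum_univ_three,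
    Matrix.of_apply, Matrix.cons_val_zero, Matrix.cons_val_one, Matrix.cons_val]
  rw [h22]
  ring

/-- pairing with a symmetric matrix -/
theorem pair_nm_symm (w : ℝ) (A : Matrix (Fin 3) (Fin 3) ℝ) {P : Matrix (Fin 3) (Fin 3) ℝ}
    (hP : ∀ i j, P i j = P j i) : pair (nm w A) P = pair (sym A) P := by
  simp only [pair, nm, sym, Fin.sum_univ_three, Matrix.of_apply]
  rw [hP 1 0, hP 2 0, hP 2 1]
  ring

theorem pair_smul (c : ℝ) (N A : Matrix (Fin 3) (Fin 3) ℝ) : pair (c • N) A = c * pair N A := by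
  simp only [pair, Matrix.smul_apply, smul_eq_mul, Finset.mul_sum]
  refine Finset.sum_congr rfl fun i _ => Finset.sum_congr rfl fun j _ => ?_
  ring

theorem thr_pos (w : ℝ) : 0 < thr w := by
  unfold thr
  have : (0 : ℝ) < max 1 (|2 * w - 1| / w) := lt_max_of_lt_left one_pos
  positivity

/-- the estimate of the quadratic term -/
theorem quad_le {w : ℝ} (hw : 0 < w) {A : Matrix (Fin 3) (Fin 3) ℝ} (htr : A.trace = 0) :
    -pair (nm w A) (A * A) ≤ thr w * Real.sqrt (qq w A) ^ 3 := by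
  have hs0 := ss_nonneg A
  have hw0 := ww_nonneg A
  have hq := qq_nonneg hw.le A
  have h6 : (0 : ℝ) < Real.sqrt 6 := Real.sqrt_pos.2 (by norm_num)
  have h6s : Real.sqrt 6 ^ 2 = 6 := Real.sq_sqrt (by norm_num)
  set S := Real.sqrt (ss A) with hS
  have hS0 : 0 ≤ S := Real.sqrt_nonneg _
  have hS2 : S ^ 2 = ss A := Real.sq_sqrt hs0
  set Q := Real.sqrt (qq w A) with hQ
  have hQ0 : 0 ≤ Q := Real.sqrt_nonneg _
  have hQ2 : Q ^ 2 = qq w A := Real.sq_sqrt hq
  have hSQ : S ≤ Q := Real.sqrt_le_sqrt (by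
    unfold qq
    have : 0 ≤ w / 2 * ww A := by positivity
    linarith)
  -- first term
  have h1 : -tc A ≤ S ^ 3 / Real.sqrt 6 := by
    have h2 := cube_sq htr
    refine (neg_le_abs _).trans (abs_le_of_sq_le_sq ?_ (by positivity))
    rw [div_pow, h6s]
    calc tc A ^ 2 ≤ ss A ^ 3 / 6 := h2
      _ = (S ^ 3) ^ 2 / 6 := by rw [← hS2]; ring
  -- second term
  have h2 : |cv A ⬝ᵥ A.mulVec (cv A)| ≤ 2 / Real.sqrt 6 * S * ww A := by
    refine abs_le_of_sq_le_sq ?_ (by positivity)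
    have h3 := stretch_sq htr (cv A)
    calc (cv A ⬝ᵥ A.mulVec (cv A)) ^ 2 ≤ 2 / 3 * ss A * (cv A ⬝ᵥ cv A) ^ 2 := h3
      _ = (2 / Real.sqrt 6 * S * ww A) ^ 2 := by
          rw [← hS2, mul_pow, mul_pow, div_pow, h6s]
          unfold ww
          ring
  rw [pair_nm_sq w htr]
  have h3 : (2 * w - 1) / 4 * (cv A ⬝ᵥ A.mulVec (cv A))
      ≤ |2 * w - 1| / 4 * (2 / Real.sqrt 6 * S * ww A) := by
    calc (2 * w - 1) / 4 * (cv A ⬝ᵥ A.mulVec (cv A))
        ≤ |(2 * w - 1) / 4 * (cv A ⬝ᵥ A.mulVec (cv A))| := le_abs_self _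
      _ = |2 * w - 1| / 4 * |cv A ⬝ᵥ A.mulVec (cv A)| := by
          rw [abs_mul, abs_div, abs_of_pos (by norm_num : (0 : ℝ) < 4)]
      _ ≤ _ := by gcongr
  set M := max 1 (|2 * w - 1| / w) with hM
  have hM1 : 1 ≤ M := le_max_left _ _
  have hM2 : |2 * w - 1| / w ≤ M := le_max_right _ _
  have hM3 : |2 * w - 1| ≤ M * w := by rwa [div_le_iff₀ hw] at hM2
  have h4 : S ^ 3 / Real.sqrt 6 + |2 * w - 1| / 4 * (2 / Real.sqrt 6 * S * ww A)
      = S / Real.sqrt 6 * (ss A + |2 * w - 1| / 2 * ww A) := by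
    rw [← hS2]; field_simp; ring
  have h5 : ss A + |2 * w - 1| / 2 * ww A ≤ M * Q ^ 2 := by
    rw [hQ2]
    unfold qq
    have h6 : |2 * w - 1| / 2 * ww A ≤ M * w / 2 * ww A := by gcongr
    nlinarith
  have h7 : thr w * Q ^ 3 = Q / Real.sqrt 6 * (M * Q ^ 2) := by
    unfold thr
    rw [← hM]
    ring
  rw [h7]
  have h8 : S / Real.sqrt 6 * (ss A + |2 * w - 1| / 2 * ww A) ≤ Q / Real.sqrt 6 * (M * Q ^ 2) := by
    have : 0 ≤ ss A + |2 * w - 1| / 2 * ww A := by positivity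
    gcongr
  linarith

/-- control of the stretching -/
theorem controls_Kw {w : ℝ} (hw : 0 < w) : Controls (Kw w) (2 / Real.sqrt 6) := by
  intro A R htr hR
  have hs0 := ss_nonneg A
  have hw0 := ww_nonneg A
  have hq := qq_nonneg hw.le A
  have h6 : (0 : ℝ) < Real.sqrt 6 := Real.sqrt_pos.2 (by norm_num)
  have h6s : Real.sqrt 6 ^ 2 = 6 := Real.sq_sqrt (by norm_num)
  have hQR : Real.sqrt (qq w A) ≤ R := by
    rcases hq.eq_or_lt with h0 | h0
    · rw [← h0, Real.sqrt_zero]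
      have := hR 0 (by
        show ss 0 + 1 / (2 * w) * ww 0 ≤ 1
        simp [ss, ww, cv])
      simpa [pair] using this
    · set Q := Real.sqrt (qq w A) with hQ
      have hQ0 : 0 < Q := Real.sqrt_pos.2 h0
      have hQ2 : Q ^ 2 = qq w A := Real.sq_sqrt hq
      have h1 := hR (Q⁻¹ • nm w A) (by
        show ss (Q⁻¹ • nm w A) + 1 / (2 * w) * ww (Q⁻¹ • nm w A) ≤ 1
        have e : ss (Q⁻¹ • nm w A) + 1 / (2 * w) * ww (Q⁻¹ • nm w A)
            = Q⁻¹ ^ 2 * (ss (nm w A) + 1 / (2 * w) * ww (nm w A)) := by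
          simp only [ss, ww, cv, dotProduct, Fin.sum_univ_three, Matrix.smul_apply, smul_eq_mul,
            Matrix.cons_val_zero, Matrix.cons_val_one, Matrix.cons_val]
          ring
        rw [e, dual_nm hw, ← hQ2]
        field_simp
        exact le_refl _)
      rw [pair_smul, pair_nm, ← hQ2] at h1
      field_simp at h1
      exact h1
  have hS : Real.sqrt (ss A) ≤ Real.sqrt (qq w A) := Real.sqrt_le_sqrt (by
    unfold qq
    have : 0 ≤ w / 2 * ww A := by positivity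
    linarith)
  set S := Real.sqrt (ss A) with hSd
  have hS0 : 0 ≤ S := Real.sqrt_nonneg _
  have hS2 : S ^ 2 = ss A := Real.sq_sqrt hs0
  have h2 : |cv A ⬝ᵥ A.mulVec (cv A)| ≤ 2 / Real.sqrt 6 * S * ww A := by
    refine abs_le_of_sq_le_sq ?_ (by positivity)
    have h3 := stretch_sq htr (cv A)
    calc (cv A ⬝ᵥ A.mulVec (cv A)) ^ 2 ≤ 2 / 3 * ss A * (cv A ⬝ᵥ cv A) ^ 2 := h3
      _ = (2 / Real.sqrt 6 * S * ww A) ^ 2 := by
          rw [← hS2, mul_pow, mul_pow, div_pow, h6s]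
          unfold ww
          ring
  refine (le_abs_self _).trans (h2.trans ?_)
  show 2 / Real.sqrt 6 * S * ww A ≤ 2 / Real.sqrt 6 * R * ww A
  have := hS.trans hQR
  gcongr

theorem Kw_bdd {w : ℝ} (hw : 0 < w) : ∃ B : ℝ, 0 ≤ B ∧ ∀ N ∈ Kw w, ∀ i j, |N i j| ≤ B := by
  refine ⟨2 + w, by positivity, fun N hN i j => ?_⟩
  have hN' : ss N + 1 / (2 * w) * ww N ≤ 1 := hN
  have hs0 := ss_nonneg N
  have hw0 := ww_nonneg N
  have h1 : ss N ≤ 1 := by
    have : 0 ≤ 1 / (2 * w) * ww N := by positivity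
    linarith
  have h2 : ww N ≤ 2 * w := by
    have h3 : 1 / (2 * w) * ww N ≤ 1 := by linarith
    rw [div_mul_eq_mul_div, one_mul, div_le_one (by positivity)] at h3
    exact h3
  -- entries
  have h3 : ((N i j + N j i) / 2) ^ 2 ≤ 1 := by
    refine le_trans ?_ h1
    unfold ss
    exact (Finset.single_le_sum (f := fun j => ((N i j + N j i) / 2) ^ 2)
      (fun j _ => sq_nonneg _) (Finset.mem_univ j)).trans
      (Finset.single_le_sum (f := fun i => ∑ j, ((N i j + N j i) / 2) ^ 2)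
        (fun i _ => Finset.sum_nonneg fun j _ => sq_nonneg _) (Finset.mem_univ i))
  have h4 : (N i j - N j i) ^ 2 ≤ 2 * w := by
    have e : ww N = (N 2 1 - N 1 2) ^ 2 + (N 0 2 - N 2 0) ^ 2 + (N 1 0 - N 0 1) ^ 2 := by
      simp only [ww, cv, dotProduct, Fin.sum_univ_three, Matrix.cons_val_zero,
        Matrix.cons_val_one, Matrix.cons_val]
      ring
    rw [e] at h2
    have a1 := sq_nonneg (N 2 1 - N 1 2)
    have a2 := sq_nonneg (N 0 2 - N 2 0)
    have a3 := sq_nonneg (N 1 0 - N 0 1)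
    fin_cases i <;> fin_cases j <;> simp <;> nlinarith
  have h5 : |(N i j + N j i) / 2| ≤ 1 := abs_le_one_iff_mul_self_le_one.2 (by nlinarith)
  have h6 : |N i j - N j i| ≤ 2 * w + 1 := by
    refine abs_le_of_sq_le_sq ?_ (by positivity)
    nlinarith
  have e : N i j = (N i j + N j i) / 2 + (N i j - N j i) / 2 := by ring
  rw [e]
  refine (abs_add_le _ _).trans ?_
  have h7 : |(N i j - N j i) / 2| = |N i j - N j i| / 2 := by
    rw [abs_div, abs_of_pos (by norm_num : (0 : ℝ) < 2)]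
  rw [h7]
  linarith

end Pool.Agent.R145.GG
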