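import Pool.Agent.R145.GG.Defs
import Pool.Agent.TH340.RC.Type1

/-!
Gauges of the velocity gradient: derivative along trajectories, bounds, the maximum, and its
comparison with solutions of Riccati inequalities.
-/

set_option autoImplicit false

open MeasureTheory Set Filter Topology
open scoped ENNReal

namespace Pool.Agent.R145.GG

open Pool.Agent.H708R2.EulerSign Pool.Agent.H708R2.EulerTypeI Pool.Agent.W786.Max
  Pool.Agent.TH340.RC

variable {T : ℝ} {u : ℝ → V → V} {p : ℝ → V → ℝ}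

theorem pair_bound {N A : Matrix (Fin 3) (Fin 3) ℝ} {B K : ℝ} (hN : ∀ i j, |N i j| ≤ B)
    (hK : ∀ i j, |A i j| ≤ K) : |pair N A| ≤ 9 * (B * K) := by
  have hK0 : 0 ≤ K := (abs_nonneg _).trans (hK 0 0)
  have hB0 : 0 ≤ B := (abs_nonneg _).trans (hN 0 0)
  unfold pair
  calc |∑ i, ∑ j, N i j * A i j| ≤ ∑ i, ∑ j, |N i j * A i j| :=
        (Finset.abs_sum_le_sum_abs _ _).trans (Finset.sum_le_sum fun i _ =>
          Finset.abs_sum_le_sum_abs _ _)
    _ ≤ ∑ _i : Fin 3, ∑ _j : Fin 3, B * K := by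
        refine Finset.sum_le_sum fun i _ => Finset.sum_le_sum fun j _ => ?_
        rw [abs_mul]
        have := hN i j; have := hK i j
        gcongr
    _ = 9 * (B * K) := by
        simp only [Finset.sum_const, Finset.card_univ, Fintype.card_fin, nsmul_eq_mul]
        push_cast
        ring

/-- the derivative of a pairing along a trajectory -/
theorem pair_deriv (h : IsC2Solution T u p) {X : ℝ → V} {a b : ℝ} (hX : IsTraj u X a b)
    (hab : Icc a b ⊆ Ioo 0 T) {t : ℝ} (ht : t ∈ Icc a b) (N : Matrix (Fin 3) (Fin 3) ℝ) :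
    HasDerivWithinAt (fun t => pair N (grad (u t) (X t)))
      (-pair N (grad (u t) (X t) * grad (u t) (X t)) - pair N (hess (p t) (X t)))
      (Icc a b) t := by
  have hd := fun i j => grad_deriv h hX hab ht i j
  have h1 : HasDerivWithinAt (fun t => ∑ i, ∑ j, N i j * grad (u t) (X t) i j)
      (∑ i, ∑ j, N i j * (-(grad (u t) (X t) * grad (u t) (X t)) i j
        - hess (p t) (X t) i j)) (Icc a b) t :=
    HasDerivWithinAt.fun_sum fun i _ => HasDerivWithinAt.fun_sum fun j _ => (hd i j).const_mul _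
  refine h1.congr_deriv ?_
  unfold pair
  rw [← Finset.sum_neg_distrib, ← Finset.sum_sub_distrib]
  refine Finset.sum_congr rfl fun i _ => ?_
  rw [← Finset.sum_neg_distrib, ← Finset.sum_sub_distrib]
  refine Finset.sum_congr rfl fun j _ => ?_
  ring

section

variable {K : Set (Matrix (Fin 3) (Fin 3) ℝ)} {B : ℝ}

/-- the largest value of the gauge -/
noncomputable def Gm (K : Set (Matrix (Fin 3) (Fin 3) ℝ)) (u : ℝ → V → V) (t : ℝ) : ℝ :=
  ⨆ q : V × K, pair q.2.1 (grad (u t) q.1)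

theorem Gm_bdd (hB : ∀ N ∈ K, ∀ i j, |N i j| ≤ B) (hB0 : 0 ≤ B)
    (h : IsClassicalSolution (Ico 0 T) u p) {b : ℝ} (hb : b < T) :
    ∃ C : ℝ, 0 ≤ C ∧ ∀ t ∈ Icc 0 b, ∀ x, ∀ N ∈ K, |pair N (grad (u t) x)| ≤ C := by
  obtain ⟨L, hL0, hL⟩ := grad_bound h hb
  exact ⟨9 * (B * L), by positivity, fun t ht x N hN =>
    pair_bound (hB N hN) (fun i j => hL t ht x i j)⟩

theorem Gm_bddAbove (hB : ∀ N ∈ K, ∀ i j, |N i j| ≤ B) (hB0 : 0 ≤ B)
    (h : IsClassicalSolution (Ico 0 T) u p) {t : ℝ} (ht : t ∈ Ico 0 T) :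
    BddAbove (range fun q : V × K => pair q.2.1 (grad (u t) q.1)) := by
  obtain ⟨C, hC0, hC⟩ := Gm_bdd hB hB0 h ht.2
  refine ⟨C, ?_⟩
  rintro _ ⟨q, rfl⟩
  exact (le_abs_self _).trans (hC t ⟨ht.1, le_rfl⟩ q.1 q.2.1 q.2.2)

theorem le_Gm (hB : ∀ N ∈ K, ∀ i j, |N i j| ≤ B) (hB0 : 0 ≤ B)
    (h : IsClassicalSolution (Ico 0 T) u p) {t : ℝ} (ht : t ∈ Ico 0 T) (x : V)
    {N : Matrix (Fin 3) (Fin 3) ℝ} (hN : N ∈ K) : pair N (grad (u t) x) ≤ Gm K u t :=
  le_ciSup (Gm_bddAbove hB hB0 h ht) ((x, ⟨N, hN⟩) : V × K)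

theorem Gm_le (hne : K.Nonempty) {C t : ℝ} (h : ∀ x, ∀ N ∈ K, pair N (grad (u t) x) ≤ C) :
    Gm K u t ≤ C := by
  obtain ⟨N, hN⟩ := hne
  have : Nonempty (V × K) := ⟨(0, ⟨N, hN⟩)⟩
  exact ciSup_le fun q => h q.1 q.2.1 q.2.2

theorem Gm_eq (hne : K.Nonempty) (hB : ∀ N ∈ K, ∀ i j, |N i j| ≤ B) (hB0 : 0 ≤ B)
    (h : IsClassicalSolution (Ico 0 T) u p) {t : ℝ}
    (ht : t ∈ Ico 0 T) {x : V} {N : Matrix (Fin 3) (Fin 3) ℝ} (hN : IsMaxPair K (u t) x N) :
    Gm K u t = pair N (grad (u t) x) :=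
  le_antisymm (Gm_le hne fun y M hM => hN.2 y M hM) (le_Gm hB hB0 h ht x hN.1)

/-- the maximum has bounded upward increments -/
theorem Gm_growth (hne : K.Nonempty) (hB : ∀ N ∈ K, ∀ i j, |N i j| ≤ B) (hB0 : 0 ≤ B)
    (h : IsC2Solution T u p) {a b : ℝ} (ha : 0 < a) (hb : b < T) :
    ∃ C : ℝ, 0 ≤ C ∧ ∀ s ∈ Icc a b, ∀ t ∈ Icc a b, s ≤ t →
      Gm K u t - Gm K u s ≤ C * (t - s) := by
  obtain ⟨L, hL0, hL⟩ := grad_bound h.sol hb
  obtain ⟨K2, hK20, hK2⟩ := hess_bound h ha hb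
  refine ⟨9 * (B * (3 * L ^ 2)) + 9 * (B * K2), by positivity, fun s hs t ht hst => ?_⟩
  have htT : t < T := ht.2.trans_lt hb
  have hs0 : 0 < s := ha.trans_le hs.1
  have key : ∀ x, ∀ N ∈ K,
      pair N (grad (u t) x)
        ≤ Gm K u s + (9 * (B * (3 * L ^ 2)) + 9 * (B * K2)) * (t - s) := by
    intro x N hN
    obtain ⟨X, hX, hXx⟩ := exists_traj h.sol hs0.le hst htT x
    have hsub : Icc s t ⊆ Ioo 0 T := fun r hr => ⟨hs0.trans_le hr.1, hr.2.trans_lt htT⟩
    have hd := fun r (hr : r ∈ Icc s t) => pair_deriv h hX hsub hr N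
    have hbd : ∀ r ∈ Icc s t, ‖-pair N (grad (u r) (X r) * grad (u r) (X r))
        - pair N (hess (p r) (X r))‖ ≤ 9 * (B * (3 * L ^ 2)) + 9 * (B * K2) := by
      intro r hr
      rw [Real.norm_eq_abs]
      have h1 := pair_bound (A := grad (u r) (X r) * grad (u r) (X r)) (K := 3 * L ^ 2) (hB N hN)
        (fun i j => sq_bound (fun i j => hL r ⟨(hs0.trans_le hr.1).le, hr.2.trans ht.2⟩ _ i j) i j)
      have h2 := pair_bound (A := hess (p r) (X r)) (K := K2) (hB N hN)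
        (fun i j => hK2 r ⟨hs.1.trans hr.1, hr.2.trans ht.2⟩ _ i j)
      calc |-pair N (grad (u r) (X r) * grad (u r) (X r)) - pair N (hess (p r) (X r))|
          ≤ |-pair N (grad (u r) (X r) * grad (u r) (X r))| + |pair N (hess (p r) (X r))| :=
            abs_sub _ _
        _ ≤ _ := by
            rw [abs_neg]
            exact add_le_add h1 h2
    have h3 := (convex_Icc s t).norm_image_sub_le_of_norm_hasDerivWithin_le hd hbd
      (left_mem_Icc.2 hst) (right_mem_Icc.2 hst)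
    rw [hXx, Real.norm_eq_abs, Real.norm_eq_abs, abs_of_nonneg (by linarith : 0 ≤ t - s)] at h3
    have h4 := le_Gm hB hB0 h.sol (t := s) ⟨hs0.le, hst.trans_lt htT⟩ (X s) hN
    have h5 : pair N (grad (u t) x) - pair N (grad (u s) (X s))
        ≤ |pair N (grad (u t) x) - pair N (grad (u s) (X s))| := le_abs_self _
    linarith
  have := Gm_le hne key
  linarith

/-- **Comparison**: `R` monotone, `R' ≥ θ R² + μ` almost everywhere. -/
theorem compareK (hne : K.Nonempty) (hB : ∀ N ∈ K, ∀ i j, |N i j| ≤ B) (hB0 : 0 ≤ B)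
    {θ : ℝ} (hθ : 0 ≤ θ) (h : IsC2Solution T u p) {s b : ℝ}
    (hs : 0 < s) (hsb : s ≤ b) (hb : b < T) {R μ : ℝ → ℝ} (hR : MonotoneOn R (Icc s b))
    (hRd : ∀ᵐ t, t ∈ Ioo s b → ∀ d, HasDerivAt R d t → θ * R t ^ 2 + μ t ≤ d)
    (h0 : ∀ x, ∀ N ∈ K, pair N (grad (u s) x) ≤ R s)
    (hcond : ∀ᵐ t, t ∈ Ioo s b → Cond K θ (μ t) (u t) (p t)) :
    ∀ x, ∀ N ∈ K, pair N (grad (u b) x) ≤ R b := by
  obtain ⟨Cm, hCm0, hCm⟩ := Gm_bdd hB hB0 h.sol hb
  obtain ⟨C, hC0, hC⟩ := Gm_growth hne hB hB0 h hs hb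
  set Q := Cm + (|R s| + |R b|) with hQ
  have hQ0 : 0 ≤ Q := by positivity
  set L0 := θ * Q with hL0'
  have hK0 : 0 ≤ L0 := by positivity
  have hGmle : ∀ t ∈ Icc s b, Gm K u t ≤ Cm := fun t ht => Gm_le hne fun x N hN =>
    (le_abs_self _).trans (hCm t ⟨hs.le.trans ht.1, ht.2⟩ x N hN)
  have hRle : ∀ t ∈ Icc s b, R t ≤ |R s| + |R b| := fun t ht => by
    have h1 := hR ht (right_mem_Icc.2 hsb) ht.2
    have h2 := le_abs_self (R b)
    have h3 := abs_nonneg (R s)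
    linarith
  set L : ℝ → ℝ := fun t => max (Gm K u t - R t) 0 * Real.exp (-(L0 * t)) with hL
  have hL0 : ∀ t, 0 ≤ L t := fun t => mul_nonneg (le_max_right _ _) (Real.exp_pos _).le
  have hinc : ∀ r ∈ Icc s b, ∀ t ∈ Icc s b, r ≤ t → L t - L r ≤ C * (t - r) := by
    intro r hr t ht hrt
    have h1 := hC r hr t ht hrt
    have h2 := hR hr ht hrt
    have h3 : max (Gm K u t - R t) 0 ≤ max (Gm K u r - R r) 0 + C * (t - r) := by
      refine max_le ?_ ?_
      · have := le_max_left (Gm K u r - R r) 0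
        linarith
      · have := le_max_right (Gm K u r - R r) 0
        have : 0 ≤ C * (t - r) := mul_nonneg hC0 (by linarith)
        linarith
    have h4 : Real.exp (-(L0 * t)) ≤ Real.exp (-(L0 * r)) :=
      Real.exp_le_exp.2 (by nlinarith)
    have h5 : Real.exp (-(L0 * t)) ≤ 1 := Real.exp_le_one_iff.2 (by
      have : 0 ≤ L0 * t := mul_nonneg hK0 (hs.le.trans ht.1)
      linarith)
    have h6 : 0 ≤ max (Gm K u r - R r) 0 := le_max_right _ _
    have h7 : 0 ≤ C * (t - r) := mul_nonneg hC0 (by linarith)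
    calc L t - L r ≤ (max (Gm K u r - R r) 0 + C * (t - r)) * Real.exp (-(L0 * t))
          - max (Gm K u r - R r) 0 * Real.exp (-(L0 * r)) :=
          sub_le_sub_right (mul_le_mul_of_nonneg_right h3 (Real.exp_pos _).le) _
      _ ≤ C * (t - r) := by nlinarith
  have hder : ∀ᵐ t, t ∈ Ioo s b → ∀ d, HasDerivAt L d t → d ≤ (0 : ℝ) := by
    filter_upwards [hRd, hcond, hR.ae_differentiableWithinAt_of_mem] with t k1 k2 k3 htI d hd
    have htI' : t ∈ Icc s b := Ioo_subset_Icc_self htI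
    by_cases hw : Gm K u t - R t ≤ 0
    · have h1 : L t = 0 := by simp only [hL]; rw [max_eq_right hw, zero_mul]
      have h2 : IsLocalMin L t := Eventually.of_forall fun r => by rw [h1]; exact hL0 r
      rw [← hd.deriv, h2.deriv_eq_zero]
    push Not at hw
    obtain ⟨x, N, hxN, hc⟩ := k2 htI
    have hRd' : DifferentiableAt ℝ R t := (k3 htI').differentiableAt (Icc_mem_nhds htI.1 htI.2)
    have hR' := k1 htI _ hRd'.hasDerivAt
    set R' := deriv R t with hR'def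
    have ht0 : 0 < t := hs.trans htI.1
    have htT : t < T := htI.2.trans hb
    obtain ⟨X, hX, hXx⟩ := exists_traj h.sol hs.le htI.1.le htT x
    have hsub : Icc s t ⊆ Ioo 0 T := fun r hr => ⟨hs.trans_le hr.1, hr.2.trans_lt htT⟩
    have htt : t ∈ Icc s t := ⟨htI.1.le, le_rfl⟩
    have d1 := pair_deriv h hX hsub htt N
    rw [hXx] at d1
    set D := -pair N (grad (u t) x * grad (u t) x) - pair N (hess (p t) x) with hD
    have d2 : HasDerivWithinAt (fun r => pair N (grad (u r) (X r)) - R r) (D - R') (Icc s t) t :=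
      d1.sub hRd'.hasDerivAt.hasDerivWithinAt
    have d3 : HasDerivWithinAt (fun r => Real.exp (-(L0 * r))) (Real.exp (-(L0 * t)) * (-L0))
        (Icc s t) t := by
      have : HasDerivAt (fun r => -(L0 * r)) (-L0) t := by
        have h9 : HasDerivAt (fun r => L0 * r) (L0 * 1) t := (hasDerivAt_id t).const_mul L0
        rw [mul_one] at h9
        exact h9.fun_neg
      exact this.exp.hasDerivWithinAt
    have d4 := d2.mul d3
    set φ : ℝ → ℝ := fun r => (pair N (grad (u r) (X r)) - R r) * Real.exp (-(L0 * r)) with hφ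
    have e1 : Gm K u t = pair N (grad (u t) x) := Gm_eq hne hB hB0 h.sol ⟨ht0.le, htT⟩ hxN
    have eφ : φ t = L t := by
      simp only [hφ, hL]
      rw [hXx, max_eq_left hw.le, e1]
    have leφ : ∀ r ∈ Icc s t, φ r ≤ L r := by
      intro r hr
      simp only [hφ, hL]
      refine mul_le_mul_of_nonneg_right ?_ (Real.exp_pos _).le
      refine le_trans ?_ (le_max_left _ _)
      have := le_Gm hB hB0 h.sol (t := r) ⟨hs.le.trans hr.1, hr.2.trans_lt htT⟩ (X r) hxN.1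
      linarith
    set Φ' := (D - R') * Real.exp (-(L0 * t))
      + (pair N (grad (u t) (X t)) - R t) * (Real.exp (-(L0 * t)) * (-L0)) with hΦ'
    have d5 : HasDerivWithinAt φ Φ' (Icc s t) t := d4
    have d6 : HasDerivWithinAt L d (Icc s t) t := hd.hasDerivWithinAt
    rw [hasDerivWithinAt_iff_tendsto_slope] at d5 d6
    have hne' : (𝓝[Icc s t \ {t}] t).NeBot := by
      have : Icc s t \ {t} = Ico s t := by
        ext r
        simp only [Set.mem_sdiff, mem_Icc, mem_singleton_iff, mem_Ico]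
        constructor
        · rintro ⟨⟨h1, h2⟩, h3⟩
          exact ⟨h1, lt_of_le_of_ne h2 h3⟩
        · rintro ⟨h1, h2⟩
          exact ⟨⟨h1, h2.le⟩, h2.ne⟩
      rw [this]
      exact right_nhdsWithin_Ico_neBot htI.1
    have hle : d ≤ Φ' := by
      refine le_of_tendsto_of_tendsto d6 d5 ?_
      filter_upwards [self_mem_nhdsWithin] with r hr
      have hrt : r < t := lt_of_le_of_ne hr.1.2 hr.2
      rw [slope_def_field, slope_def_field, eφ]
      have hneg : r - t < 0 := by linarith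
      rw [div_le_div_right_of_neg hneg]
      have := leφ r hr.1
      linarith
    refine hle.trans ?_
    -- the sign of the derivative
    have hc' : D ≤ θ * Gm K u t ^ 2 + μ t := by rw [e1]; exact hc
    have f1 : D - R' ≤ θ * (Gm K u t + R t) * (Gm K u t - R t) := by nlinarith
    have f2 : Gm K u t + R t ≤ Q := by
      have := hGmle t htI'
      have := hRle t htI'
      linarith
    have f3 : θ * (Gm K u t + R t) * (Gm K u t - R t) ≤ L0 * (Gm K u t - R t) := by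
      refine mul_le_mul_of_nonneg_right ?_ hw.le
      rw [hL0']
      exact mul_le_mul_of_nonneg_left f2 hθ
    have hE := Real.exp_pos (-(L0 * t))
    have f4 : Φ' = (D - R' - L0 * (Gm K u t - R t)) * Real.exp (-(L0 * t)) := by
      rw [hΦ', hXx, e1]
      ring
    rw [f4]
    exact mul_nonpos_of_nonpos_of_nonneg (by linarith) hE.le
  have hfin := growth_of_ae hsb hinc (r := fun _ => 0) intervalIntegrable_const hder
  rw [intervalIntegral.integral_zero] at hfin
  have hLs : L s = 0 := by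
    have h1 : Gm K u s - R s ≤ 0 := by
      have := Gm_le hne h0
      linarith
    simp only [hL]
    rw [max_eq_right h1, zero_mul]
  have hLb : L b ≤ 0 := by linarith
  have hLb2 : max (Gm K u b - R b) 0 ≤ 0 := by
    by_contra hcon
    push Not at hcon
    have : 0 < L b := mul_pos hcon (Real.exp_pos _)
    linarith
  have hfin2 : Gm K u b ≤ R b := by
    have := le_max_left (Gm K u b - R b) 0
    linarith
  intro x N hN
  exact (le_Gm hB hB0 h.sol (t := b) ⟨hs.le.trans hsb, hb⟩ x hN).trans hfin2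

/-- general form -/
theorem generalK (hne : K.Nonempty) (hB : ∀ N ∈ K, ∀ i j, |N i j| ≤ B) (hB0 : 0 ≤ B)
    {θ : ℝ} (hθ : 0 ≤ θ) (h : IsC2Solution T u p) {s : ℝ} (hs : s ∈ Ioo 0 T)
    {R μ : ℝ → ℝ} (hR : MonotoneOn R (Ico s T))
    (hRd : ∀ᵐ t, t ∈ Ioo s T → ∀ d, HasDerivAt R d t → θ * R t ^ 2 + μ t ≤ d)
    (h0 : ∀ x, ∀ N ∈ K, pair N (grad (u s) x) ≤ R s)
    (hcond : ∀ᵐ t, t ∈ Ioo s T → Cond K θ (μ t) (u t) (p t)) :
    ∀ t ∈ Ico s T, ∀ x, ∀ N ∈ K, pair N (grad (u t) x) ≤ R t := by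
  intro t ht
  have hsub : Icc s t ⊆ Ico s T := Icc_subset_Ico_right ht.2
  refine compareK (μ := μ) hne hB hB0 hθ h hs.1 ht.1 ht.2 (hR.mono hsub) ?_ h0 ?_
  · filter_upwards [hRd] with r hr hrI
    exact hr ⟨hrI.1, hrI.2.trans ht.2⟩
  · filter_upwards [hcond] with r hr hrI
    exact hr ⟨hrI.1, hrI.2.trans ht.2⟩

/-- **The rate before a singularity.** -/
theorem rateK (hne : K.Nonempty) (hB : ∀ N ∈ K, ∀ i j, |N i j| ≤ B) (hB0 : 0 ≤ B)
    {k θ c : ℝ} (hk : 0 ≤ k) (hctl : Controls K k)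
    (hθ : 0 < θ) (hc : 0 ≤ c) (h4 : 4 * θ * c < 1)
    (hlt : k * (1 - Real.sqrt (1 - 4 * θ * c)) < 2 * θ)
    (h : IsC2Solution T u p) {s : ℝ} (hs : s ∈ Ioo 0 T)
    (hcond : ∀ᵐ t, t ∈ Ioo s T → Cond K θ (c / (T - t) ^ 2) (u t) (p t)) {m : ℝ}
    (hm : m < (1 + Real.sqrt (1 - 4 * θ * c)) / (2 * θ * (T - s)))
    (h0 : ∀ x, ∀ N ∈ K, pair N (grad (u s) x) ≤ m) : BKMFinite T u := by
  obtain ⟨a, ha, ha0, ha1, hac, hb⟩ := roots hθ hc h4
  have hys : 0 < T - s := by linarith [hs.2]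
  obtain ⟨K0, hK0, hK⟩ := exists_K (T := T) (θ := θ) (a := a) hθ ha1 hs.2 (m := m) (by
    rw [hb]
    refine hm.trans_le (le_of_eq ?_)
    field_simp)
  obtain ⟨W, hW0, hW⟩ := vort_bound h.sol hs.2
  have H := generalK hne hB hB0 hθ.le h hs (R := Rs T θ a K0) (μ := fun t => c / (T - t) ^ 2)
    (Rs_mono hθ hK0 ha0 (by linarith) s)
    (Eventually.of_forall fun t ht d hd => by
      have := Rs_deriv (a := a) hθ hK0 ht.2
      rw [hac] at this
      exact (this.unique hd).le)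
    (fun x N hN => (h0 x N hN).trans hK) hcond
  have hvb : ∀ t ∈ Ico s T, ∀ x,
      nrm (vort (u t) x) ≤ W * Real.exp (k * ∫ r in s..t, Rs T θ a K0 r) := by
    intro t ht x
    have hsub : Icc s t ⊆ Ico s T := Icc_subset_Ico_right ht.2
    refine vort_le h (k := k) hk hs.1 ht.1 ht.2
      ((Rs_mono hθ hK0 ha0 (by linarith) s).mono hsub) ?_ ?_
      (fun x => (hW s ⟨hs.1.le, le_rfl⟩ x).1) x
    · intro r hr
      exact Rs_nonneg hθ hK0 ha0 (by linarith) (hsub hr).2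
    · intro r hr y
      have hrT := hsub hr
      have := hctl (grad (u r) y) (Rs T θ a K0 r)
        (h.sol.div_free r ⟨hs.1.le.trans hrT.1, hrT.2⟩ y) (fun N hN => H r hrT y N hN)
      rw [vort_eq]
      exact this
  have hbd : ∀ t ∈ Ico s T, ∀ x, nrm (vort (u t) x)
      ≤ W * Real.exp (k * Zs T a K0 s / θ) * (T - t) ^ (-(k * a / θ)) := by
    intro t ht x
    refine (hvb t ht x).trans ?_
    have := exp_int (a := a) hθ hK0 (k := k) hk ht.1 ht.2
    rw [mul_assoc]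
    gcongr
  refine bkm_of_bound h.sol hs hbd (pw_int ?_ hs.2 _)
  rw [div_lt_one hθ, ha]
  linarith

end

end Pool.Agent.R145.GG
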