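import Pool.Agent.H708R2.EulerTypeI.Traj

/-!
Definitions: gauges of the velocity gradient.
-/

set_option autoImplicit false

open MeasureTheory Set

namespace Pool.Agent.R145.GG

open Pool.Agent.H708R2.EulerSign Pool.Agent.H708R2.EulerTypeI

/-- The pairing `N : A = ∑ N i j * A i j` of two matrices. -/
def pair (N A : Matrix (Fin 3) (Fin 3) ℝ) : ℝ := ∑ i, ∑ j, N i j * A i j

/-- At the point `x` and for the matrix `N` of `K` the pairing `N : ∇v(x)` is maximal among all
points and all matrices of `K`: the gauge `sup_{N ∈ K} N : ∇v` has its maximum at `x`, and there it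
is given by `N`. -/
def IsMaxPair (K : Set (Matrix (Fin 3) (Fin 3) ℝ)) (v : V → V) (x : V)
    (N : Matrix (Fin 3) (Fin 3) ℝ) : Prop :=
  N ∈ K ∧ ∀ y, ∀ M ∈ K, pair M (grad v y) ≤ pair N (grad v x)

/-- One-sided condition at one maximum point of the gauge:
`- N : ((∇v)² + D²p) ≤ θ (N : ∇v)² + μ`. -/
def Cond (K : Set (Matrix (Fin 3) (Fin 3) ℝ)) (θ μ : ℝ) (v : V → V) (p : V → ℝ) : Prop :=
  ∃ x N, IsMaxPair K v x N ∧
    -pair N (grad v x * grad v x) - pair N (hess p x) ≤ θ * pair N (grad v x) ^ 2 + μ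

/-- The gauge of `K` controls the stretching with the constant `k`: for every traceless matrix `A`
with curl vector `ω`, if `N : A ≤ R` for all `N ∈ K` then `ω · A ω ≤ k R |ω|²`. -/
def Controls (K : Set (Matrix (Fin 3) (Fin 3) ℝ)) (k : ℝ) : Prop :=
  ∀ (A : Matrix (Fin 3) (Fin 3) ℝ) (R : ℝ), A.trace = 0 → (∀ N ∈ K, pair N A ≤ R) →
    cv A ⬝ᵥ A.mulVec (cv A) ≤ k * R * (cv A ⬝ᵥ cv A)

/-- The symmetric part. -/
noncomputable def sym (A : Matrix (Fin 3) (Fin 3) ℝ) : Matrix (Fin 3) (Fin 3) ℝ :=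
  Matrix.of fun i j => (A i j + A j i) / 2

/-- The density `|S|² + w |ω|² / 2`, where `S` is the symmetric part of `∇v(x)` and `ω` the
vorticity; for `w = 1` it is the square `|∇v(x)|²` of the Frobenius norm of the gradient. -/
noncomputable def dens (w : ℝ) (v : V → V) (x : V) : ℝ :=
  strainSq v x + w / 2 * (vort v x ⬝ᵥ vort v x)

/-- The constant `θ_w = max (1, |2 - 1/w|) / √6`; it is `1 / √6` for `1/3 ≤ w ≤ 1`. -/
noncomputable def thr (w : ℝ) : ℝ := max 1 (|2 * w - 1| / w) / Real.sqrt 6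

/-- One-sided condition for the deviatoric part of the pressure Hessian at one point where the
density is maximal: `- S : D²p ≤ (θ - θ_w) q^{3/2} + μ q^{1/2}` with `q = |S|² + w |ω|² / 2`. -/
def CondW (w θ μ : ℝ) (v : V → V) (p : V → ℝ) : Prop :=
  ∃ x, (∀ y, dens w v y ≤ dens w v x) ∧
    -pair (sym (grad v x)) (hess p x)
      ≤ (θ - thr w) * Real.sqrt (dens w v x) ^ 3 + μ * Real.sqrt (dens w v x)

end Pool.Agent.R145.GG
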