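import Pool.Agent.R145.GG.Alg
import Pool.Agent.TH340.RC.Sharp

/-!
# Sharpness: linear flows with a strong compression in one direction
-/

set_option autoImplicit false

open MeasureTheory Set Filter
open scoped ENNReal NNReal Topology

namespace Pool.Agent.R145.GG

open Pool.Agent.H708R2.EulerSign Pool.Agent.H708R2.EulerTypeI Pool.Agent.TH340.RC

/-- The rate. -/
noncomputable def gx (T t : ℝ) : ℝ := (T - t)⁻¹

/-- The linear flow. -/
noncomputable def ux (δ T t : ℝ) (x : V) : V :=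
  ![gx T t * x 0, gx T t * x 1 - δ / 2 * gx T t * x 2, δ / 2 * gx T t * x 1 - 2 * gx T t * x 2]

/-- The pressure of the linear flow. -/
noncomputable def px (δ T t : ℝ) (x : V) : ℝ :=
  -(gx T t ^ 2 * (2 * x 0 ^ 2 + (2 - δ ^ 2 / 4) * (x 1 ^ 2 + x 2 ^ 2))) / 2

variable {δ T : ℝ}

theorem gx_hasDerivAt {t : ℝ} (ht : t < T) : HasDerivAt (gx T) (gx T t ^ 2) t := by
  have h3 : HasDerivAt (fun t => T - t) (-1) t := by
    simpa using (hasDerivAt_id t).const_sub T
  have hs : 0 < T - t := sub_pos.2 ht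
  refine (h3.fun_inv hs.ne').congr_deriv ?_
  unfold gx
  field_simp

/-- The velocity gradient of the linear flow. -/
noncomputable def Ax (δ T t : ℝ) : Matrix (Fin 3) (Fin 3) ℝ :=
  !![gx T t, 0, 0; 0, gx T t, -(δ / 2 * gx T t); 0, δ / 2 * gx T t, -(2 * gx T t)]

theorem ux_eq (δ T t : ℝ) : ux δ T t = (Ax δ T t).mulVec := by
  ext x i
  fin_cases i <;> simp [ux, Ax, Matrix.mulVec, dotProduct, Fin.sum_univ_three] <;> ring

theorem ux_fderiv_apply (δ T t : ℝ) (x : V) (i j : Fin 3) :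
    fderiv ℝ (ux δ T t) x (Pi.single j 1) i = Ax δ T t i j := by
  have h : HasFDerivAt (ux δ T t)
      (Matrix.mulVecLin (Ax δ T t)).toContinuousLinearMap x := by
    rw [ux_eq]
    exact (Matrix.mulVecLin (Ax δ T t)).toContinuousLinearMap.hasFDerivAt
  rw [h.fderiv]
  simp

theorem ux_grad (δ T t : ℝ) (x : V) : grad (ux δ T t) x = Ax δ T t := by
  ext i j
  exact ux_fderiv_apply δ T t x i j

/-- The eigenvalues of the pressure Hessian of the linear flow. -/
noncomputable def dx (δ T t : ℝ) : V :=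
  ![-(2 * gx T t ^ 2), -((2 - δ ^ 2 / 4) * gx T t ^ 2), -((2 - δ ^ 2 / 4) * gx T t ^ 2)]

theorem px_fderiv (δ T t : ℝ) (x : V) (i : Fin 3) :
    fderiv ℝ (px δ T t) x (Pi.single i 1) = dx δ T t i * x i := by
  have h0 : ∀ i : Fin 3, HasFDerivAt (fun x : V => x i) (ContinuousLinearMap.proj i : V →L[ℝ] ℝ) x :=
    fun i => (ContinuousLinearMap.proj i : V →L[ℝ] ℝ).hasFDerivAt
  have h1 : HasFDerivAt (px δ T t) _ x :=
    ((((h0 0).pow 2).const_mul (-(gx T t ^ 2))).add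
      ((((h0 1).pow 2).add ((h0 2).pow 2)).const_mul (-((2 - δ ^ 2 / 4) / 2 * gx T t ^ 2)))
      |>.congr_of_eventuallyEq (Eventually.of_forall fun y => by simp [px]; ring))
  rw [h1.fderiv]
  fin_cases i <;> simp [dx] <;> ring

theorem px_hess (δ T t : ℝ) (x : V) : hess (px δ T t) x = Matrix.diagonal (dx δ T t) := by
  ext i j
  show fderiv ℝ (fun y => fderiv ℝ (px δ T t) y (Pi.single i 1)) x (Pi.single j 1) = _
  have h0 : (fun y => fderiv ℝ (px δ T t) y (Pi.single i 1)) = fun y => dx δ T t i * y i := by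
    funext y; exact px_fderiv δ T t y i
  have h1 : HasFDerivAt (fun y : V => dx δ T t i * y i)
      (dx δ T t i • (ContinuousLinearMap.proj i : V →L[ℝ] ℝ)) x :=
    ((ContinuousLinearMap.proj i : V →L[ℝ] ℝ).hasFDerivAt (x := x)).const_mul (dx δ T t i)
  rw [h0, h1.fderiv]
  by_cases hij : i = j
  · subst hij; simp
  · simp [Matrix.diagonal_apply_ne _ hij, Pi.single_eq_of_ne hij]

theorem cd_gx : ContDiffOn ℝ (⊤ : ℕ∞) (fun z : ℝ × V => gx T z.1) (Ico 0 T ×ˢ univ) := cd_inv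

/-- The linear flow solves the Euler equations. -/
theorem ux_solution (δ T : ℝ) : IsSpaceSolution T (ux δ T) (px δ T) := by
  have c : ∀ i : Fin 3, ContDiffOn ℝ (⊤ : ℕ∞) (fun z : ℝ × V => z.2 i) (Ico 0 T ×ˢ univ) :=
    fun i => (contDiff_coord i).contDiffOn
  refine ⟨?_, ?_, ?_, ?_⟩
  · rw [contDiffOn_pi]
    intro i
    fin_cases i
    · exact cd_gx.mul (c 0)
    · exact (cd_gx.mul (c 1)).sub ((contDiffOn_const.mul cd_gx).mul (c 2))
    · exact ((contDiffOn_const.mul cd_gx).mul (c 1)).sub ((contDiffOn_const.mul cd_gx).mul (c 2))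
  · unfold px
    exact ((cd_gx.pow 2).mul ((contDiffOn_const.mul ((c 0).pow 2)).add
      (contDiffOn_const.mul (((c 1).pow 2).add ((c 2).pow 2))))).neg.div_const 2
  · intro t _ x
    unfold divergence
    rw [ux_grad]
    simp [Matrix.trace, Fin.sum_univ_three, Ax]
    ring
  · intro t ht x i
    simp only [ux_fderiv_apply, px_fderiv]
    have hu : UniqueDiffWithinAt ℝ (Ico 0 T) t := uniqueDiffOn_Ico 0 T t ht
    have ha := (gx_hasDerivAt (T := T) ht.2).hasDerivWithinAt (s := Ico 0 T)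
    fin_cases i
    · have h1 : HasDerivWithinAt (fun s => ux δ T s x 0) _ (Ico 0 T) t := ha.mul_const (x 0)
      simp only [Fin.zero_eta, Fin.isValue]
      rw [h1.derivWithin hu]
      simp [Fin.sum_univ_three, ux, Ax, dx]
      ring
    · have h1 : HasDerivWithinAt (fun s => ux δ T s x 1) _ (Ico 0 T) t :=
        (ha.mul_const (x 1)).sub ((ha.const_mul (δ / 2)).mul_const (x 2))
      simp only [Fin.mk_one, Fin.isValue]
      rw [h1.derivWithin hu]
      simp [Fin.sum_univ_three, ux, Ax, dx]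
      ring
    · have h1 : HasDerivWithinAt (fun s => ux δ T s x 2) _ (Ico 0 T) t :=
        ((ha.const_mul (δ / 2)).mul_const (x 1)).sub ((ha.const_mul 2).mul_const (x 2))
      simp only [Fin.reduceFinMk, Fin.isValue]
      rw [h1.derivWithin hu]
      simp [Fin.sum_univ_three, ux, Ax, dx]
      ring

theorem ux_vort (δ T t : ℝ) (x : V) : vort (ux δ T t) x = ![δ * gx T t, 0, 0] := by
  unfold vort
  rw [ux_grad]
  ext i
  fin_cases i <;> simp [Ax]
  ring

theorem ux_dens (w δ T t : ℝ) (x : V) :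
    dens w (ux δ T t) x = gx T t ^ 2 * (6 + w * δ ^ 2 / 2) := by
  rw [dens_eq, ux_grad]
  simp [qq, ss, ww, cv, Ax, Fin.sum_univ_three, dotProduct]
  ring

theorem ux_pair (δ T t : ℝ) (x : V) :
    -pair (sym (grad (ux δ T t) x)) (hess (px δ T t) x) = gx T t ^ 3 * (δ ^ 2 / 4) := by
  rw [ux_grad, px_hess]
  simp [pair, sym, Ax, dx, Fin.sum_univ_three, Matrix.diagonal_apply]
  ring

/-- The Beale-Kato-Majda integral of the linear flow diverges. -/
theorem ux_not_bkm (hδ : 0 < δ) (hT : 0 < T) : ¬ BKMFinite T (ux δ T) := by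
  intro hfin
  unfold BKMFinite at hfin
  have hgpos : ∀ t ∈ Ico 0 T, 0 < gx T t := fun t ht => inv_pos.2 (sub_pos.2 ht.2)
  refine ug_not_bkm (α := 1) le_rfl hT ?_
  unfold BKMFinite
  -- the vorticities are proportional
  have hn : ∀ t ∈ Ioo 0 T, ∀ x, nrm (vort (ux δ T t) x) = δ * nrm (vort (ug 1 T t) x) := by
    intro t ht x
    have h1 := hgpos t ⟨ht.1.le, ht.2⟩
    rw [ux_vort, ug_vort]
    unfold nrm
    have e : yg 1 T t = gx T t := by
      unfold yg gx
      rw [Real.rpow_neg_one]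
    simp only [dotProduct, Fin.sum_univ_three, Matrix.cons_val_zero, Matrix.cons_val_one,
      Matrix.cons_val]
    rw [e]
    have e1 : δ * gx T t * (δ * gx T t) + 0 * 0 + 0 * 0 = (δ * gx T t) ^ 2 := by ring
    have e2 : 0 * 0 + 0 * 0 + gx T t * gx T t = gx T t ^ 2 := by ring
    rw [e1, e2, Real.sqrt_sq (by positivity), Real.sqrt_sq h1.le]
  have h1 : ∫⁻ t in Ioo 0 T, ⨆ x, ENNReal.ofReal (nrm (vort (ug 1 T t) x))
      ≤ ∫⁻ t in Ioo 0 T, ENNReal.ofReal δ⁻¹ * ⨆ x, ENNReal.ofReal (nrm (vort (ux δ T t) x)) := by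
    refine setLIntegral_mono' measurableSet_Ioo fun t ht => ?_
    refine iSup_le fun x => ?_
    have h2 : ENNReal.ofReal (nrm (vort (ug 1 T t) x))
        = ENNReal.ofReal δ⁻¹ * ENNReal.ofReal (nrm (vort (ux δ T t) x)) := by
      rw [← ENNReal.ofReal_mul (inv_pos.2 hδ).le, hn t ht x, ← mul_assoc, inv_mul_cancel₀ hδ.ne',
        one_mul]
    rw [h2]
    gcongr
    exact le_iSup (fun x => ENNReal.ofReal (nrm (vort (ux δ T t) x))) x
  refine h1.trans_lt ?_
  rw [lintegral_const_mul' _ _ ENNReal.ofReal_ne_top]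
  exact ENNReal.mul_lt_top ENNReal.ofReal_lt_top hfin

/-- **Sharpness.** -/
theorem sharpW {w ε : ℝ} (hw : 1 / 3 ≤ w) (hw1 : w ≤ 1) (hT : 0 < T) (hε : 0 < ε) :
    ∃ (u : ℝ → V → V) (p : ℝ → V → ℝ), IsSpaceSolution T u p ∧
      (∀ t, ∃ A : Matrix (Fin 3) (Fin 3) ℝ, ∀ x, u t x = A.mulVec x) ∧
      (∀ t ∈ Ico 0 T, CondW w (1 / Real.sqrt 6) (ε / (T - t) ^ 2) (u t) (p t)) ∧
      (∀ t ∈ Ico 0 T, ∀ x, Real.sqrt (dens w (u t) x) ≤ (Real.sqrt 6 + ε) / (T - t)) ∧
      ¬ BKMFinite T u := by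
  have hw0 : 0 < w := by linarith
  have h6 : (0 : ℝ) < Real.sqrt 6 := Real.sqrt_pos.2 (by norm_num)
  have h6s : Real.sqrt 6 ^ 2 = 6 := Real.sq_sqrt (by norm_num)
  have h61 : 1 ≤ Real.sqrt 6 := by
    rw [Real.one_le_sqrt]; norm_num
  have hthr : thr w = 1 / Real.sqrt 6 := by
    unfold thr
    rw [max_eq_left]
    rw [div_le_one hw0, abs_le]
    constructor <;> linarith
  set δ := min 1 ε with hδ
  have hδ0 : 0 < δ := lt_min one_pos hε
  have hδ1 : δ ≤ 1 := min_le_left _ _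
  have hδε : δ ≤ ε := min_le_right _ _
  have hδ2 : δ ^ 2 ≤ ε := by nlinarith
  refine ⟨ux δ T, px δ T, ux_solution δ T, fun t => ⟨Ax δ T t, fun x => congrFun (ux_eq δ T t) x⟩,
    fun t ht => ⟨0, fun y => by rw [ux_dens, ux_dens], ?_⟩, fun t ht x => ?_, ux_not_bkm hδ0 hT⟩
  · have hy : 0 < T - t := sub_pos.2 ht.2
    have hg : 0 < gx T t := inv_pos.2 hy
    rw [ux_pair, ux_dens, hthr, sub_self, zero_mul, zero_add, Real.sqrt_mul (sq_nonneg _),
      Real.sqrt_sq hg.le]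
    have e : ε / (T - t) ^ 2 = ε * gx T t ^ 2 := by
      unfold gx
      field_simp
    rw [e]
    have h1 : Real.sqrt 6 ≤ Real.sqrt (6 + w * δ ^ 2 / 2) := Real.sqrt_le_sqrt (by
      have : 0 ≤ w * δ ^ 2 / 2 := by positivity
      linarith)
    have h2 : 1 ≤ Real.sqrt (6 + w * δ ^ 2 / 2) := h61.trans h1
    have h3 : δ ^ 2 / 4 ≤ ε * Real.sqrt (6 + w * δ ^ 2 / 2) := by nlinarith
    calc gx T t ^ 3 * (δ ^ 2 / 4) ≤ gx T t ^ 3 * (ε * Real.sqrt (6 + w * δ ^ 2 / 2)) := by gcongr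
      _ = _ := by ring
  · have hy : 0 < T - t := sub_pos.2 ht.2
    have hg : 0 < gx T t := inv_pos.2 hy
    rw [ux_dens, Real.sqrt_mul (sq_nonneg _), Real.sqrt_sq hg.le]
    have h1 : Real.sqrt (6 + w * δ ^ 2 / 2) ≤ Real.sqrt 6 + ε := by
      refine Real.sqrt_le_iff.2 ⟨by positivity, ?_⟩
      have : w * δ ^ 2 ≤ 1 * ε := by gcongr
      nlinarith
    have e : (Real.sqrt 6 + ε) / (T - t) = gx T t * (Real.sqrt 6 + ε) := by
      unfold gx
      field_simp
    rw [e]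
    gcongr

end Pool.Agent.R145.GG
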