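import Pool.Agent.R145.GG.Basic
import Pool.Agent.R145.GG.Alg

/-!
The weighted norms: from the condition at one maximum point to the condition for the gauge.
-/

set_option autoImplicit false

open MeasureTheory Set Filter Topology
open scoped ENNReal

namespace Pool.Agent.R145.GG

open Pool.Agent.H708R2.EulerSign Pool.Agent.H708R2.EulerTypeI Pool.Agent.W786.Max
  Pool.Agent.TH340.RC

variable {T : ℝ} {u : ℝ → V → V} {p : ℝ → V → ℝ}

/-- the Hessian of the pressure is symmetric -/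
theorem hess_symm (h : IsC2Solution T u p) {t : ℝ} (ht : t ∈ Ioo 0 T) (x : V) (i j : Fin 3) :
    hess (p t) x i j = hess (p t) x j i := by
  have hz : ((t, x) : ℝ × V) ∈ Om T := ⟨ht, mem_univ _⟩
  have h1 := h.hess_eq (z := (t, x)) hz i j
  have h2 := h.hess_eq (z := (t, x)) hz j i
  have hc : ContDiffAt ℝ 2 (fun z : ℝ × V => p z.1 z.2) (t, x) :=
    h.p2.contDiffAt (isOpen_Om.mem_nhds hz)
  have h3 := hc.isSymmSndFDerivAt (by simp)
  have h4 := h3.eq (0, Pi.single j 1) (0, Pi.single i 1)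
  exact h1.trans (h4.trans h2.symm)

theorem ss_smul (c : ℝ) (A : Matrix (Fin 3) (Fin 3) ℝ) : ss (c • A) = c ^ 2 * ss A := by
  simp only [ss, Fin.sum_univ_three, Matrix.smul_apply, smul_eq_mul]
  ring

theorem ww_smul (c : ℝ) (A : Matrix (Fin 3) (Fin 3) ℝ) : ww (c • A) = c ^ 2 * ww A := by
  simp only [ww, cv, dotProduct, Fin.sum_univ_three, Matrix.smul_apply, smul_eq_mul,
    Matrix.cons_val_zero, Matrix.cons_val_one, Matrix.cons_val]
  ring

theorem unit_mem {w : ℝ} (hw : 0 < w) {A : Matrix (Fin 3) (Fin 3) ℝ} (hq : 0 < qq w A) :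
    (Real.sqrt (qq w A))⁻¹ • nm w A ∈ Kw w := by
  show ss _ + 1 / (2 * w) * ww _ ≤ 1
  set Q := Real.sqrt (qq w A) with hQ
  have hQ0 : 0 < Q := Real.sqrt_pos.2 hq
  have hQ2 : Q ^ 2 = qq w A := Real.sq_sqrt hq.le
  rw [ss_smul, ww_smul]
  have e : Q⁻¹ ^ 2 * ss (nm w A) + 1 / (2 * w) * (Q⁻¹ ^ 2 * ww (nm w A))
      = Q⁻¹ ^ 2 * (ss (nm w A) + 1 / (2 * w) * ww (nm w A)) := by ring
  rw [e, dual_nm hw, ← hQ2]
  field_simp
  exact le_refl _

theorem zero_mem (w : ℝ) : (0 : Matrix (Fin 3) (Fin 3) ℝ) ∈ Kw w := by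
  show ss 0 + 1 / (2 * w) * ww 0 ≤ 1
  simp [ss, ww, cv]

/-- from the weighted norm to its gauge -/
theorem cond_of {w θ μ : ℝ} (hw : 0 < w) (hμ : 0 ≤ μ) {v : V → V} {q : V → ℝ}
    (hdiv : ∀ x, (grad v x).trace = 0) (hP : ∀ x i j, hess q x i j = hess q x j i)
    (h : CondW w θ μ v q) : Cond (Kw w) θ μ v q := by
  obtain ⟨x, hmax, hx⟩ := h
  have hq := qq_nonneg hw.le (grad v x)
  have hle : ∀ y, ∀ M ∈ Kw w, pair M (grad v y) ≤ Real.sqrt (qq w (grad v x)) := by
    intro y M hM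
    refine (pair_le hw hM _).trans (Real.sqrt_le_sqrt ?_)
    exact hmax y
  rcases hq.eq_or_lt with h0 | h0
  · refine ⟨x, 0, ⟨zero_mem w, fun y M hM => ?_⟩, ?_⟩
    · have := hle y M hM
      rw [← h0, Real.sqrt_zero] at this
      refine this.trans (le_of_eq ?_)
      simp [pair]
    · simp [pair, hμ]
  · set Q := Real.sqrt (qq w (grad v x)) with hQ
    have hQ0 : 0 < Q := Real.sqrt_pos.2 h0
    have hQ2 : Q ^ 2 = qq w (grad v x) := Real.sq_sqrt hq
    have hval : pair (Q⁻¹ • nm w (grad v x)) (grad v x) = Q := by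
      rw [pair_smul, pair_nm, ← hQ2]
      field_simp
    refine ⟨x, Q⁻¹ • nm w (grad v x), ⟨unit_mem hw h0, fun y M hM => ?_⟩, ?_⟩
    · rw [hval]
      exact hle y M hM
    · rw [hval, pair_smul, pair_smul, pair_nm_symm w _ (hP x)]
      have h1 := quad_le hw (hdiv x)
      rw [← hQ] at h1
      have h2 : -pair (sym (grad v x)) (hess q x) ≤ (θ - thr w) * Q ^ 3 + μ * Q := hx
      have e : -(Q⁻¹ * pair (nm w (grad v x)) (grad v x * grad v x))
          - Q⁻¹ * pair (sym (grad v x)) (hess q x)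
          = Q⁻¹ * (-pair (nm w (grad v x)) (grad v x * grad v x)
            + -pair (sym (grad v x)) (hess q x)) := by ring
      rw [e]
      calc Q⁻¹ * (-pair (nm w (grad v x)) (grad v x * grad v x)
            + -pair (sym (grad v x)) (hess q x))
          ≤ Q⁻¹ * (thr w * Q ^ 3 + ((θ - thr w) * Q ^ 3 + μ * Q)) := by gcongr
        _ = θ * Q ^ 2 + μ := by
            field_simp
            ring

/-- **The rate of the weighted norms before a singularity.** -/
theorem rateW {w θ c : ℝ} (hw : 0 < w) (hθ : 0 < θ) (hc : 0 ≤ c) (h4 : 4 * θ * c < 1)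
    (hlt : 1 - Real.sqrt (1 - 4 * θ * c) < Real.sqrt 6 * θ)
    (h : IsC2Solution T u p) {s : ℝ} (hs : s ∈ Ioo 0 T)
    (hcond : ∀ᵐ t, t ∈ Ioo s T → CondW w θ (c / (T - t) ^ 2) (u t) (p t))
    (hsing : ¬ BKMFinite T u) :
    ∃ x, (1 + Real.sqrt (1 - 4 * θ * c)) / (2 * θ * (T - s)) ≤ Real.sqrt (dens w (u s) x) := by
  obtain ⟨B, hB0, hB⟩ := Kw_bdd hw
  have h6 : (0 : ℝ) < Real.sqrt 6 := Real.sqrt_pos.2 (by norm_num)
  have hcond' : ∀ᵐ t, t ∈ Ioo s T → Cond (Kw w) θ (c / (T - t) ^ 2) (u t) (p t) := by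
    filter_upwards [hcond] with t ht htI
    have htT : t ∈ Ioo 0 T := ⟨hs.1.trans htI.1, htI.2⟩
    refine cond_of hw (by positivity) (fun x => ?_) (fun x i j => hess_symm h htT x i j) (ht htI)
    exact h.sol.div_free t ⟨htT.1.le, htT.2⟩ x
  have hlt' : 2 / Real.sqrt 6 * (1 - Real.sqrt (1 - 4 * θ * c)) < 2 * θ := by
    rw [div_mul_eq_mul_div, div_lt_iff₀ h6]
    linarith
  -- the maximum is attained
  have hatt : ∃ x, ∀ y, dens w (u s) y ≤ dens w (u s) x := by
    have hK : IsCompact (closure Dom) := dom_bdd.isCompact_closure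
    have hne : (closure Dom).Nonempty := by
      obtain ⟨g, hg, -⟩ := dom_exists_unique (0 : V)
      exact ⟨_, subset_closure hg⟩
    have hsI : s ∈ Ico 0 T := ⟨hs.1.le, hs.2⟩
    have hgc : ∀ i j, Continuous fun x => grad (u s) x i j := by
      intro i j
      have h1 := grad_continuousOn h.sol i j
      have h2 : Continuous fun x : V => ((s, x) : ℝ × V) := by fun_prop
      exact h1.comp_continuous h2 fun x => ⟨hsI, mem_univ _⟩
    have hc : Continuous fun x => dens w (u s) x := by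
      have e : (fun x => dens w (u s) x) = fun x => qq w (grad (u s) x) := rfl
      rw [e]
      simp only [qq, ss, ww, cv, dotProduct, Fin.sum_univ_three, Matrix.cons_val_zero,
        Matrix.cons_val_one, Matrix.cons_val]
      have g := hgc
      fun_prop
    obtain ⟨x, hx, hmax⟩ := hK.exists_isMaxOn hne hc.continuousOn
    refine ⟨x, fun y => ?_⟩
    obtain ⟨g, hg, -⟩ := dom_exists_unique y
    have h2 : (g +ᵥ y : V) = y + g := by rw [add_comm]; rfl
    have h3 : y + (g : V) ∈ closure Dom := by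
      rw [← h2]; exact subset_closure hg
    have h4 := hmax h3
    simp only [mem_ofPred_eq] at h4
    have h5 : dens w (u s) (y + (g : V)) = dens w (u s) y := by
      have e : grad (u s) (y + (g : V)) = grad (u s) y := by
        ext i j
        exact (grad_periodic h.sol hsI i j).lat g.2 y
      rw [dens_eq, dens_eq, e]
    rwa [h5] at h4
  obtain ⟨x, hx⟩ := hatt
  refine ⟨x, ?_⟩
  by_contra hcon
  push Not at hcon
  refine hsing (rateK ⟨0, zero_mem w⟩ hB hB0 (k := 2 / Real.sqrt 6) (by positivity)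
    (controls_Kw hw) hθ hc h4 hlt' h hs hcond' hcon ?_)
  intro y N hN
  refine (pair_le hw hN _).trans (Real.sqrt_le_sqrt ?_)
  exact hx y

end Pool.Agent.R145.GG
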